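import Mathlib

/-!
Functions on `(0, ∞)` all of whose mixed-step differences have alternating signs, and the relation
with complete monotonicity of smooth functions.
-/

open Set Filter Topology MeasureTheory
open scoped ContDiff

namespace Pool.Agent.V11191.ML

/-- iterated differences `f(t) - f(t + h)` with the steps of a list -/
noncomputable def dif : List ℝ → (ℝ → ℝ) → ℝ → ℝ
  | [], f => f
  | h :: hs, f => dif hs (fun t => f t - f (t + h))

/-- all mixed differences with positive steps are nonnegative on `(0, ∞)` -/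
def InC (f : ℝ → ℝ) : Prop :=
  ∀ hs : List ℝ, (∀ h ∈ hs, 0 < h) → ∀ t : ℝ, 0 < t → 0 ≤ dif hs f t

lemma dif_add (hs : List ℝ) : ∀ f g : ℝ → ℝ,
    dif hs (fun t => f t + g t) = fun t => dif hs f t + dif hs g t := by
  induction hs with
  | nil => intro f g; rfl
  | cons h hs ih =>
    intro f g
    have e : (fun t => (fun t => f t + g t) t - (fun t => f t + g t) (t + h)) =
        fun t => (f t - f (t + h)) + (g t - g (t + h)) := by
      funext t; simp only; ring
    simp only [dif]
    rw [e, ih]

lemma dif_smul (hs : List ℝ) : ∀ (c : ℝ) (f : ℝ → ℝ),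
    dif hs (fun t => c * f t) = fun t => c * dif hs f t := by
  induction hs with
  | nil => intro c f; rfl
  | cons h hs ih =>
    intro c f
    have e : (fun t => (fun t => c * f t) t - (fun t => c * f t) (t + h)) =
        fun t => c * (f t - f (t + h)) := by
      funext t; simp only; ring
    simp only [dif]
    rw [e, ih]

lemma dif_exp (hs : List ℝ) : ∀ (r : ℝ),
    dif hs (fun t => Real.exp (-(t * r))) =
      fun t => (hs.map (fun h => 1 - Real.exp (-(h * r)))).prod * Real.exp (-(t * r)) := by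
  induction hs with
  | nil => intro r; simp [dif]
  | cons h hs ih =>
    intro r
    have e : (fun t => Real.exp (-(t * r)) - Real.exp (-((t + h) * r))) =
        fun t => (1 - Real.exp (-(h * r))) * Real.exp (-(t * r)) := by
      funext t
      have : Real.exp (-((t + h) * r)) = Real.exp (-(h * r)) * Real.exp (-(t * r)) := by
        rw [← Real.exp_add]; congr 1; ring
      rw [this]; ring
    simp only [dif]
    rw [e, dif_smul, ih]
    funext t
    simp only [List.map_cons, List.prod_cons]
    ring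

lemma InC.add {f g : ℝ → ℝ} (hf : InC f) (hg : InC g) : InC (fun t => f t + g t) := by
  intro hs hp t ht
  rw [dif_add]
  exact add_nonneg (hf hs hp t ht) (hg hs hp t ht)

lemma InC.smul {f : ℝ → ℝ} (hf : InC f) {c : ℝ} (hc : 0 ≤ c) : InC (fun t => c * f t) := by
  intro hs hp t ht
  rw [dif_smul]
  exact mul_nonneg hc (hf hs hp t ht)

lemma inC_exp {r : ℝ} (hr : 0 ≤ r) : InC (fun t => Real.exp (-(t * r))) := by
  intro hs hp t _
  rw [dif_exp]
  refine mul_nonneg ?_ (Real.exp_pos _).le
  apply List.prod_nonneg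
  intro a ha
  rw [List.mem_map] at ha
  obtain ⟨h, hh, rfl⟩ := ha
  have h1 : Real.exp (-(h * r)) ≤ 1 := by
    rw [Real.exp_le_one_iff]
    have := mul_nonneg (hp h hh).le hr
    linarith
  linarith

/-- differences depend only on the values on `(0, ∞)` -/
lemma dif_congr (hs : List ℝ) : ∀ (f g : ℝ → ℝ), (∀ h ∈ hs, 0 < h) →
    (∀ t, 0 < t → f t = g t) → ∀ t, 0 < t → dif hs f t = dif hs g t := by
  induction hs with
  | nil => intro f g _ hfg t ht; exact hfg t ht
  | cons h hs ih =>
    intro f g hp hfg t ht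
    simp only [dif]
    have hh := hp h (by simp)
    refine ih _ _ (fun x hx => hp x (by simp [hx])) ?_ t ht
    intro t ht
    rw [hfg t ht, hfg (t + h) (by linarith)]

lemma InC.congr {f g : ℝ → ℝ} (hf : InC f) (hfg : ∀ t, 0 < t → f t = g t) : InC g := by
  intro hs hp t ht
  rw [← dif_congr hs f g hp hfg t ht]
  exact hf hs hp t ht

/-- differences of a pointwise limit -/
lemma dif_tendsto {ι : Type*} {l : Filter ι} (hs : List ℝ) : ∀ (F : ι → ℝ → ℝ) (f : ℝ → ℝ),
    (∀ h ∈ hs, 0 < h) → (∀ t, 0 < t → Tendsto (fun i => F i t) l (𝓝 (f t))) →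
    ∀ t, 0 < t → Tendsto (fun i => dif hs (F i) t) l (𝓝 (dif hs f t)) := by
  induction hs with
  | nil => intro F f _ hF t ht; exact hF t ht
  | cons h hs ih =>
    intro F f hp hF t ht
    simp only [dif]
    have hh := hp h (by simp)
    refine ih _ _ (fun x hx => hp x (by simp [hx])) ?_ t ht
    intro t ht
    exact (hF t ht).sub (hF (t + h) (by linarith))

lemma inC_of_tendsto {ι : Type*} {l : Filter ι} [l.NeBot] {F : ι → ℝ → ℝ} {f : ℝ → ℝ}
    (hF : ∀ᶠ i in l, InC (F i)) (hlim : ∀ t, 0 < t → Tendsto (fun i => F i t) l (𝓝 (f t))) :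
    InC f := by
  intro hs hp t ht
  refine ge_of_tendsto (dif_tendsto hs F f hp hlim t ht) ?_
  filter_upwards [hF] with i hi
  exact hi hs hp t ht

/-- differences commute with integrals -/
lemma dif_integral {Ω : Type*} [MeasurableSpace Ω] {μ : Measure Ω} (hs : List ℝ) :
    ∀ (F : Ω → ℝ → ℝ), (∀ h ∈ hs, 0 < h) → (∀ t, 0 < t → Integrable (fun x => F x t) μ) →
    ∀ t, 0 < t → Integrable (fun x => dif hs (F x) t) μ ∧
      dif hs (fun t => ∫ x, F x t ∂μ) t = ∫ x, dif hs (F x) t ∂μ := by
  induction hs with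
  | nil => intro F _ hF t ht; exact ⟨hF t ht, rfl⟩
  | cons h hs ih =>
    intro F hp hF t ht
    simp only [dif]
    have hh := hp h (by simp)
    have hp' : ∀ x ∈ hs, 0 < x := fun x hx => hp x (by simp [hx])
    have h1 := ih (fun x t => F x t - F x (t + h)) hp'
      (fun t ht => (hF t ht).sub (hF (t + h) (by linarith))) t ht
    refine ⟨h1.1, ?_⟩
    rw [← h1.2]
    refine dif_congr hs _ _ hp' ?_ t ht
    intro t ht
    rw [integral_sub (hF t ht) (hF (t + h) (by linarith))]

lemma inC_integral {Ω : Type*} [MeasurableSpace Ω] {μ : Measure Ω} {F : Ω → ℝ → ℝ}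
    (hint : ∀ t, 0 < t → Integrable (fun x => F x t) μ) (hF : ∀ᵐ x ∂μ, InC (F x)) :
    InC (fun t => ∫ x, F x t ∂μ) := by
  intro hs hp t ht
  rw [(dif_integral hs F hp hint t ht).2]
  apply integral_nonneg_of_ae
  filter_upwards [hF] with x hx
  exact hx hs hp t ht

/-- the negative of the derivative stays in the class -/
lemma InC.neg_deriv {f f' : ℝ → ℝ} (hf : InC f) (hd : ∀ t, 0 < t → HasDerivAt f (f' t) t) :
    InC (fun t => -f' t) := by
  have hlim : ∀ t, 0 < t → Tendsto (fun h : ℝ => h⁻¹ * (f t - f (t + h))) (𝓝[>] 0)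
      (𝓝 (-f' t)) := by
    intro t ht
    have h1 := (hasDerivAt_iff_tendsto_slope_zero.1 (hd t ht)).mono_left
      (nhdsWithin_mono 0 (fun x (hx : x ∈ Ioi (0 : ℝ)) => (ne_of_gt hx : x ≠ 0)))
    have h2 := h1.neg
    refine h2.congr ?_
    intro h
    simp only [smul_eq_mul]
    ring
  refine inC_of_tendsto (l := 𝓝[>] (0 : ℝ)) ?_ hlim
  filter_upwards [self_mem_nhdsWithin] with h (hh : 0 < h)
  refine InC.smul ?_ (inv_nonneg.2 hh.le)
  intro hs hp t ht
  exact hf (h :: hs) (by
    intro x hx
    rcases List.mem_cons.1 hx with rfl | hx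
    · exact hh
    · exact hp x hx) t ht

/-- a smooth function of the class is completely monotone on `(0, ∞)` -/
theorem inC_iteratedDeriv {f : ℝ → ℝ} (hf : InC f) (hs : ContDiff ℝ ∞ f) (n : ℕ) :
    InC (fun t => (-1) ^ n * iteratedDeriv n f t) := by
  induction n with
  | zero => simpa using hf
  | succ n ih =>
    have hd : ∀ t, 0 < t → HasDerivAt (fun t => (-1) ^ n * iteratedDeriv n f t)
        ((-1) ^ n * iteratedDeriv (n + 1) f t) t := by
      intro t _
      have h1 : Differentiable ℝ (iteratedDeriv n f) :=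
        hs.differentiable_iteratedDeriv n (by exact_mod_cast ENat.coe_lt_top n)
      have h2 := (h1 t).hasDerivAt.const_mul ((-1 : ℝ) ^ n)
      rw [iteratedDeriv_succ]
      exact h2
    refine (ih.neg_deriv hd).congr ?_
    intro t _
    rw [pow_succ]; ring

end Pool.Agent.V11191.ML
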