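import Mathlib
import Pool.Agent.V11191.ML.Diff

/-!
The kernel `exp (-t (x + y)) + G (t x) G (t y)`, where `G u = exp (-u) * erfi (sqrt u)`.
-/

open Set Filter Topology MeasureTheory intervalIntegral
open scoped Nat

namespace Pool.Agent.V11191.ML

lemma hasDerivAt_expint (ph g : ℝ → ℝ) (hph : Continuous ph) (hg : Continuous g) (t : ℝ) :
    HasDerivAt (fun t => ∫ v in (0 : ℝ)..1, Real.exp (t * ph v) * g v)
      (∫ v in (0 : ℝ)..1, ph v * Real.exp (t * ph v) * g v) t := by
  obtain ⟨C, hC⟩ := (isCompact_Icc (a := (0 : ℝ)) (b := 1)).exists_bound_of_continuousOn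
    hph.continuousOn
  obtain ⟨D, hD⟩ := (isCompact_Icc (a := (0 : ℝ)) (b := 1)).exists_bound_of_continuousOn
    hg.continuousOn
  have hC0 : 0 ≤ C := (norm_nonneg _).trans (hC 0 (by simp))
  have hD0 : 0 ≤ D := (norm_nonneg _).trans (hD 0 (by simp))
  have key := intervalIntegral.hasDerivAt_integral_of_dominated_loc_of_deriv_le
    (μ := volume) (a := (0 : ℝ)) (b := 1)
    (F := fun t v => Real.exp (t * ph v) * g v)
    (F' := fun t v => ph v * Real.exp (t * ph v) * g v)
    (x₀ := t) (s := Metric.ball t 1)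
    (bound := fun _ => C * Real.exp ((|t| + 1) * C) * D)
    (Metric.ball_mem_nhds t one_pos) ?_ ?_ ?_ ?_ ?_ ?_
  · exact key.2
  · refine Eventually.of_forall fun s => ?_
    exact (by fun_prop : Continuous fun v => Real.exp (s * ph v) * g v).aestronglyMeasurable
  · exact (by fun_prop : Continuous fun v => Real.exp (t * ph v) * g v).intervalIntegrable _ _
  · exact (by fun_prop :
      Continuous fun v => ph v * Real.exp (t * ph v) * g v).aestronglyMeasurable
  · refine Eventually.of_forall fun v hv s hs => ?_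
    have hv' : v ∈ Icc (0 : ℝ) 1 := by
      rw [uIoc_of_le zero_le_one] at hv
      exact ⟨hv.1.le, hv.2⟩
    have h1 := hC v hv'
    have h2 := hD v hv'
    rw [Real.norm_eq_abs] at h1 h2 ⊢
    rw [abs_mul, abs_mul, Real.abs_exp]
    have h3 : s * ph v ≤ (|t| + 1) * C := by
      have : |s| ≤ |t| + 1 := by
        have h4 : |s - t| < 1 := by simpa [Real.dist_eq] using hs
        have h5 : |s| ≤ |s - t| + |t| := by
          simpa using abs_add_le (s - t) t
        linarith
      calc s * ph v ≤ |s * ph v| := le_abs_self _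
        _ = |s| * |ph v| := abs_mul _ _
        _ ≤ _ := mul_le_mul this h1 (abs_nonneg _) (by positivity)
    exact mul_le_mul (mul_le_mul h1 (Real.exp_le_exp.2 h3) (Real.exp_pos _).le hC0) h2
      (abs_nonneg _) (by positivity)
  · exact intervalIntegrable_const
  · refine Eventually.of_forall fun v _ s _ => ?_
    have h1 : HasDerivAt (fun s : ℝ => s * ph v) (ph v) s := by
      simpa using (hasDerivAt_id s).mul_const (ph v)
    exact ((h1.exp).mul_const (g v)).congr_deriv (by ring)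

/-- `∫₀¹ exp (t c v²) dv` -/
noncomputable def P (c t : ℝ) : ℝ := ∫ v in (0 : ℝ)..1, Real.exp (t * (c * v ^ 2))

lemma P_deriv (c t : ℝ) :
    HasDerivAt (P c) (∫ v in (0 : ℝ)..1, (c * v ^ 2) * Real.exp (t * (c * v ^ 2))) t := by
  have h := hasDerivAt_expint (fun v => c * v ^ 2) (fun _ => 1) (by fun_prop) (by fun_prop) t
  simp only [mul_one] at h
  exact h

lemma P_ibp (c t : ℝ) :
    P c t + 2 * t * (∫ v in (0 : ℝ)..1, (c * v ^ 2) * Real.exp (t * (c * v ^ 2))) =
      Real.exp (t * c) := by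
  have h1 : ∀ v ∈ uIcc (0 : ℝ) 1, HasDerivAt (fun v => v * Real.exp (t * (c * v ^ 2)))
      (Real.exp (t * (c * v ^ 2)) + 2 * t * ((c * v ^ 2) * Real.exp (t * (c * v ^ 2)))) v := by
    intro v _
    have h2 : HasDerivAt (fun v : ℝ => t * (c * v ^ 2)) (t * (c * (2 * v))) v := by
      simpa using ((hasDerivAt_pow 2 v).const_mul c).const_mul t
    have h3 := (hasDerivAt_id v).mul h2.exp
    refine h3.congr_deriv ?_
    simp only [id]
    ring
  have h4 := intervalIntegral.integral_eq_sub_of_hasDerivAt h1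
    ((by fun_prop : Continuous fun v : ℝ => Real.exp (t * (c * v ^ 2)) +
      2 * t * ((c * v ^ 2) * Real.exp (t * (c * v ^ 2)))).intervalIntegrable _ _)
  rw [intervalIntegral.integral_add ((by fun_prop : Continuous _).intervalIntegrable _ _)
    ((by fun_prop : Continuous _).intervalIntegrable _ _),
    intervalIntegral.integral_const_mul] at h4
  unfold P
  rw [h4]
  simp

lemma R_deriv (p q t : ℝ) (hp : 0 < p) (hq : 0 < q) :
    HasDerivAt (fun t => ∫ v in (0 : ℝ)..1, Real.exp (t * (p + q * v ^ 2)) * (p + q * v ^ 2)⁻¹)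
      (Real.exp (t * p) * P q t) t := by
  have hpos : ∀ v : ℝ, p + q * v ^ 2 ≠ 0 := fun v => by positivity
  have h := hasDerivAt_expint (fun v => p + q * v ^ 2) (fun v => (p + q * v ^ 2)⁻¹)
    (by fun_prop) (by fun_prop (disch := exact hpos _)) t
  refine h.congr_deriv ?_
  unfold P
  rw [← intervalIntegral.integral_const_mul]
  congr 1
  funext v
  have := hpos v
  have e : Real.exp (t * (p + q * v ^ 2)) = Real.exp (t * p) * Real.exp (t * (q * v ^ 2)) := by
    rw [← Real.exp_add]; congr 1; ring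
  rw [e]
  field_simp

lemma arctan_int (a b : ℝ) (ha : 0 < a) (hb : 0 < b) :
    ∫ v in (0 : ℝ)..1, (a ^ 2 + b ^ 2 * v ^ 2)⁻¹ = (a * b)⁻¹ * Real.arctan (b / a) := by
  have h1 : ∀ v ∈ uIcc (0 : ℝ) 1, HasDerivAt (fun v => (a * b)⁻¹ * Real.arctan (b / a * v))
      ((a ^ 2 + b ^ 2 * v ^ 2)⁻¹) v := by
    intro v _
    have h2 : HasDerivAt (fun v : ℝ => b / a * v) (b / a) v := by
      simpa using (hasDerivAt_id v).const_mul (b / a)
    have h3 := (h2.arctan).const_mul ((a * b)⁻¹)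
    refine h3.congr_deriv ?_
    have h4 : a ^ 2 + b ^ 2 * v ^ 2 ≠ 0 := by positivity
    have h5 : 1 + (b / a * v) ^ 2 ≠ 0 := by positivity
    field_simp
  have hpos : ∀ v : ℝ, a ^ 2 + b ^ 2 * v ^ 2 ≠ 0 := fun v => by positivity
  rw [intervalIntegral.integral_eq_sub_of_hasDerivAt h1
    ((by fun_prop (disch := exact hpos _) :
      Continuous fun v : ℝ => (a ^ 2 + b ^ 2 * v ^ 2)⁻¹).intervalIntegrable _ _)]
  simp

lemma kernel_id (a b t : ℝ) (ha : 0 < a) (hb : 0 < b) :
    1 + 4 / Real.pi * (a * b) * (t * P (a ^ 2) t * P (b ^ 2) t) =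
      2 / Real.pi * (a * b) *
        ((∫ v in (0 : ℝ)..1, Real.exp (t * (a ^ 2 + b ^ 2 * v ^ 2)) * (a ^ 2 + b ^ 2 * v ^ 2)⁻¹) +
        (∫ v in (0 : ℝ)..1, Real.exp (t * (b ^ 2 + a ^ 2 * v ^ 2)) *
          (b ^ 2 + a ^ 2 * v ^ 2)⁻¹)) := by
  set Φ : ℝ → ℝ := fun t => 1 + 4 / Real.pi * (a * b) * (t * P (a ^ 2) t * P (b ^ 2) t) with hΦ
  set Ψ : ℝ → ℝ := fun t => 2 / Real.pi * (a * b) *
        ((∫ v in (0 : ℝ)..1, Real.exp (t * (a ^ 2 + b ^ 2 * v ^ 2)) * (a ^ 2 + b ^ 2 * v ^ 2)⁻¹) +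
        (∫ v in (0 : ℝ)..1, Real.exp (t * (b ^ 2 + a ^ 2 * v ^ 2)) *
          (b ^ 2 + a ^ 2 * v ^ 2)⁻¹)) with hΨ
  have hdΨ : ∀ t, HasDerivAt Ψ (2 / Real.pi * (a * b) *
      (Real.exp (t * a ^ 2) * P (b ^ 2) t + Real.exp (t * b ^ 2) * P (a ^ 2) t)) t := by
    intro t
    exact ((R_deriv (a ^ 2) (b ^ 2) t (by positivity) (by positivity)).add
      (R_deriv (b ^ 2) (a ^ 2) t (by positivity) (by positivity))).const_mul _
  have hdΦ : ∀ t, HasDerivAt Φ (2 / Real.pi * (a * b) *
      (Real.exp (t * a ^ 2) * P (b ^ 2) t + Real.exp (t * b ^ 2) * P (a ^ 2) t)) t := by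
    intro t
    have h1 := ((((hasDerivAt_id t).mul (P_deriv (a ^ 2) t)).mul (P_deriv (b ^ 2) t)).const_mul
      (4 / Real.pi * (a * b))).const_add 1
    refine h1.congr_deriv ?_
    have e1 := P_ibp (a ^ 2) t
    have e2 := P_ibp (b ^ 2) t
    rw [← e1, ← e2]
    simp only [id, Pi.mul_apply]
    ring
  have hconst : ∀ x y : ℝ, (Φ - Ψ) x = (Φ - Ψ) y := by
    apply is_const_of_deriv_eq_zero
    · intro t
      exact ((hdΦ t).sub (hdΨ t)).differentiableAt
    · intro t
      rw [((hdΦ t).sub (hdΨ t)).deriv]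
      ring
  have h0 : (Φ - Ψ) 0 = 0 := by
    simp only [Pi.sub_apply, hΦ, hΨ, zero_mul, mul_zero, Real.exp_zero, one_mul, add_zero]
    rw [arctan_int a b ha hb, arctan_int b a hb ha]
    have h1 : Real.arctan (a / b) = Real.pi / 2 - Real.arctan (b / a) := by
      rw [← Real.arctan_inv_of_pos (by positivity)]
      congr 1
      rw [inv_div]
    rw [h1]
    have := Real.pi_pos
    field_simp
    ring
  have h2 := hconst t 0
  rw [h0] at h2
  have : Φ t - Ψ t = 0 := h2
  linarith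

/-- `G u = exp (-u) erfi (sqrt u)` -/
noncomputable def G (u : ℝ) : ℝ := 2 / √Real.pi * (√u * (Real.exp (-u) * P 1 u))

lemma G_zero : G 0 = 0 := by simp [G]

lemma P_scale (c t : ℝ) : P 1 (t * c) = P c t := by
  unfold P
  congr 1
  funext v
  congr 1
  ring

lemma kernel_eq {x y t : ℝ} (hx : 0 < x) (hy : 0 < y) (ht : 0 < t) :
    Real.exp (-(t * (x + y))) + G (t * x) * G (t * y) =
      2 / Real.pi * (√x * √y) * ∫ v in (0 : ℝ)..1,
        (Real.exp (-(t * (y * (1 - v ^ 2)))) * (x + y * v ^ 2)⁻¹ +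
          Real.exp (-(t * (x * (1 - v ^ 2)))) * (y + x * v ^ 2)⁻¹) := by
  have ha : 0 < √x := Real.sqrt_pos.2 hx
  have hb : 0 < √y := Real.sqrt_pos.2 hy
  have hk := kernel_id (√x) (√y) t ha hb
  rw [Real.sq_sqrt hx.le, Real.sq_sqrt hy.le] at hk
  have hG : G (t * x) * G (t * y) = Real.exp (-(t * (x + y))) *
      (4 / Real.pi * (√x * √y) * (t * P x t * P y t)) := by
    unfold G
    rw [P_scale, P_scale, Real.sqrt_mul ht.le, Real.sqrt_mul ht.le]
    have e1 : Real.exp (-(t * (x + y))) = Real.exp (-(t * x)) * Real.exp (-(t * y)) := by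
      rw [← Real.exp_add]; congr 1; ring
    have e2 : √Real.pi * √Real.pi = Real.pi := Real.mul_self_sqrt Real.pi_pos.le
    have e3 : √t * √t = t := Real.mul_self_sqrt ht.le
    have e4 : √Real.pi ≠ 0 := (Real.sqrt_pos.2 Real.pi_pos).ne'
    rw [e1]
    calc _ = 4 / (√Real.pi * √Real.pi) * ((√t * √t) * (√x * √y)) *
        (Real.exp (-(t * x)) * Real.exp (-(t * y))) * (P x t * P y t) := by
          field_simp
          ring
      _ = _ := by rw [e2, e3]; ring
  rw [hG]
  have h1 : Real.exp (-(t * (x + y))) + Real.exp (-(t * (x + y))) *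
      (4 / Real.pi * (√x * √y) * (t * P x t * P y t)) =
      Real.exp (-(t * (x + y))) * (1 + 4 / Real.pi * (√x * √y) * (t * P x t * P y t)) := by ring
  have hpos1 : ∀ v : ℝ, x + y * v ^ 2 ≠ 0 := fun v => by positivity
  have hpos2 : ∀ v : ℝ, y + x * v ^ 2 ≠ 0 := fun v => by positivity
  rw [h1, hk, ← intervalIntegral.integral_add
    ((by fun_prop (disch := exact hpos1 _) : Continuous fun v : ℝ =>
      Real.exp (t * (x + y * v ^ 2)) * (x + y * v ^ 2)⁻¹).intervalIntegrable _ _)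
    ((by fun_prop (disch := exact hpos2 _) : Continuous fun v : ℝ =>
      Real.exp (t * (y + x * v ^ 2)) * (y + x * v ^ 2)⁻¹).intervalIntegrable _ _)]
  rw [show ∀ A B C : ℝ, A * (B * C) = B * (A * C) from fun A B C => by ring,
    ← intervalIntegral.integral_const_mul]
  congr 2
  funext v
  have e1 : Real.exp (-(t * (y * (1 - v ^ 2)))) =
      Real.exp (-(t * (x + y))) * Real.exp (t * (x + y * v ^ 2)) := by
    rw [← Real.exp_add]; congr 1; ring
  have e2 : Real.exp (-(t * (x * (1 - v ^ 2)))) =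
      Real.exp (-(t * (x + y))) * Real.exp (t * (y + x * v ^ 2)) := by
    rw [← Real.exp_add]; congr 1; ring
  rw [e1, e2]
  ring

/-- the kernel lies in the class -/
theorem kernel_inC {x y : ℝ} (hx : 0 ≤ x) (hy : 0 ≤ y) :
    InC (fun t => Real.exp (-(t * (x + y))) + G (t * x) * G (t * y)) := by
  rcases hx.eq_or_lt with rfl | hx'
  · refine (inC_exp (r := 0 + y) (by linarith)).congr ?_
    intro t _
    simp [G_zero]
  rcases hy.eq_or_lt with rfl | hy'
  · refine (inC_exp (r := x + 0) (by linarith)).congr ?_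
    intro t _
    simp [G_zero]
  have hpos1 : ∀ v : ℝ, x + y * v ^ 2 ≠ 0 := fun v => by positivity
  have hpos2 : ∀ v : ℝ, y + x * v ^ 2 ≠ 0 := fun v => by positivity
  have h1 : InC (fun t => ∫ v in Ioc (0 : ℝ) 1,
        (Real.exp (-(t * (y * (1 - v ^ 2)))) * (x + y * v ^ 2)⁻¹ +
          Real.exp (-(t * (x * (1 - v ^ 2)))) * (y + x * v ^ 2)⁻¹)) := by
    apply inC_integral
    · intro t _
      have hc : Continuous fun v : ℝ => (Real.exp (-(t * (y * (1 - v ^ 2)))) * (x + y * v ^ 2)⁻¹ +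
          Real.exp (-(t * (x * (1 - v ^ 2)))) * (y + x * v ^ 2)⁻¹) := by
        apply Continuous.add
        · fun_prop (disch := exact hpos1 _)
        · fun_prop (disch := exact hpos2 _)
      exact (hc.integrableOn_Icc (a := 0) (b := 1)).mono_set Ioc_subset_Icc_self
    · rw [ae_restrict_iff' measurableSet_Ioc]
      refine Eventually.of_forall fun v hv => ?_
      have hv2 : 0 ≤ 1 - v ^ 2 := by nlinarith [hv.1, hv.2]
      have a1 := (inC_exp (mul_nonneg hy hv2)).smul (c := (x + y * v ^ 2)⁻¹) (by positivity)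
      have a2 := (inC_exp (mul_nonneg hx hv2)).smul (c := (y + x * v ^ 2)⁻¹) (by positivity)
      refine (a1.add a2).congr ?_
      intro t _
      ring
  refine (h1.smul (c := 2 / Real.pi * (√x * √y)) (by positivity)).congr ?_
  intro t ht
  rw [kernel_eq hx' hy' ht, intervalIntegral.integral_of_le zero_le_one]

/-- the beta-type integrals -/
noncomputable def W (j : ℕ) : ℝ := ∫ v in (0 : ℝ)..1, (1 - v ^ 2) ^ j

lemma W_succ (j : ℕ) : (2 * j + 3 : ℝ) * W (j + 1) = (2 * j + 2) * W j := by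
  have h1 : ∀ v ∈ uIcc (0 : ℝ) 1, HasDerivAt (fun v : ℝ => v * (1 - v ^ 2) ^ (j + 1))
      ((2 * j + 3) * (1 - v ^ 2) ^ (j + 1) - (2 * j + 2) * (1 - v ^ 2) ^ j) v := by
    intro v _
    have h2 : HasDerivAt (fun v : ℝ => 1 - v ^ 2) (-(2 * v)) v := by
      simpa using (hasDerivAt_pow 2 v).const_sub 1
    have h3 := (hasDerivAt_id v).mul (h2.pow (j + 1))
    refine h3.congr_deriv ?_
    simp only [id, Nat.add_sub_cancel, Pi.pow_apply]
    push_cast
    ring
  have h4 := intervalIntegral.integral_eq_sub_of_hasDerivAt h1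
    ((by fun_prop : Continuous fun v : ℝ => (2 * j + 3 : ℝ) * (1 - v ^ 2) ^ (j + 1) -
      (2 * j + 2) * (1 - v ^ 2) ^ j).intervalIntegrable _ _)
  rw [intervalIntegral.integral_sub ((by fun_prop : Continuous _).intervalIntegrable _ _)
    ((by fun_prop : Continuous _).intervalIntegrable _ _),
    intervalIntegral.integral_const_mul, intervalIntegral.integral_const_mul] at h4
  simp at h4
  unfold W
  linarith

lemma W_eq (j : ℕ) : W j = √Real.pi / 2 * (j ! : ℝ) / Real.Gamma (j + 1 / 2 + 1) := by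
  induction j with
  | zero =>
    have h1 : Real.Gamma ((0 : ℕ) + 1 / 2 + 1 : ℝ) = √Real.pi / 2 := by
      rw [Nat.cast_zero, zero_add, Real.Gamma_add_one (by norm_num), Real.Gamma_one_half_eq]
      ring
    rw [h1]
    have : √Real.pi ≠ 0 := (Real.sqrt_pos.2 Real.pi_pos).ne'
    simp [W]
    field_simp
  | succ j ih =>
    have h1 := W_succ j
    have hG : 0 < Real.Gamma (j + 1 / 2 + 1) := Real.Gamma_pos_of_pos (by positivity)
    have h2 : Real.Gamma ((j + 1 : ℕ) + 1 / 2 + 1 : ℝ) =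
        (j + 1 / 2 + 1) * Real.Gamma (j + 1 / 2 + 1) := by
      rw [← Real.Gamma_add_one (by positivity)]
      congr 1; push_cast; ring
    rw [h2, Nat.factorial_succ]
    have h3 : W (j + 1) = (2 * j + 2) / (2 * j + 3) * W j := by
      have : (2 * (j : ℝ) + 3) ≠ 0 := by positivity
      field_simp
      linarith
    rw [h3, ih]
    push_cast
    field_simp
    ring

/-- the power series of `G` -/
lemma G_hasSum {u : ℝ} (hu : 0 ≤ u) :
    HasSum (fun j : ℕ => (-1) ^ j * u ^ ((j : ℝ) + 1 / 2) / Real.Gamma (j + 1 / 2 + 1)) (G u) := by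
  have h1 : HasSum (fun j : ℕ => ∫ v in (0 : ℝ)..1, (-(u * (1 - v ^ 2))) ^ j / (j ! : ℝ))
      (∫ v in (0 : ℝ)..1, Real.exp (-(u * (1 - v ^ 2)))) := by
    apply intervalIntegral.hasSum_integral_of_dominated_convergence
      (fun (n : ℕ) (_ : ℝ) => u ^ n / (n ! : ℝ))
    · intro n
      exact (by fun_prop : Continuous fun v : ℝ =>
        (-(u * (1 - v ^ 2))) ^ n / (n ! : ℝ)).aestronglyMeasurable
    · intro n
      refine Eventually.of_forall fun v hv => ?_
      rw [uIoc_of_le zero_le_one] at hv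
      have hv2 : 0 ≤ 1 - v ^ 2 := by nlinarith [hv.1, hv.2]
      have hv3 : 1 - v ^ 2 ≤ 1 := by nlinarith [hv.1, hv.2]
      rw [norm_div, norm_pow, norm_neg, Real.norm_eq_abs, abs_of_nonneg (mul_nonneg hu hv2),
        Real.norm_eq_abs, abs_of_nonneg (by positivity : (0 : ℝ) ≤ (n ! : ℝ))]
      have : u * (1 - v ^ 2) ≤ u := by nlinarith
      gcongr
    · exact Eventually.of_forall fun v _ => Real.summable_pow_div_factorial u
    · exact intervalIntegrable_const
    · refine Eventually.of_forall fun v _ => ?_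
      rw [Real.exp_eq_exp_ℝ]
      exact NormedSpace.expSeries_div_hasSum_exp (-(u * (1 - v ^ 2)))
  have h2 : G u = 2 / √Real.pi * √u * ∫ v in (0 : ℝ)..1, Real.exp (-(u * (1 - v ^ 2))) := by
    unfold G P
    rw [← intervalIntegral.integral_const_mul, mul_assoc]
    congr 3
    funext v
    rw [← Real.exp_add]
    congr 1
    ring
  rw [h2]
  refine (h1.mul_left (2 / √Real.pi * √u)).congr_fun ?_
  intro j
  have h3 : (∫ v in (0 : ℝ)..1, (-(u * (1 - v ^ 2))) ^ j / (j ! : ℝ)) =
      ((-1) ^ j * u ^ j / (j ! : ℝ)) * W j := by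
    unfold W
    rw [← intervalIntegral.integral_const_mul]
    congr 1
    funext v
    rw [neg_pow, mul_pow]
    ring
  rw [h3, W_eq, Real.rpow_add_of_nonneg hu (by positivity) (by norm_num), Real.rpow_natCast,
    ← Real.sqrt_eq_rpow]
  have : √Real.pi ≠ 0 := (Real.sqrt_pos.2 Real.pi_pos).ne'
  have h4 : ((j ! : ℕ) : ℝ) ≠ 0 := by positivity
  field_simp

end Pool.Agent.V11191.ML
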