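import Mathlib

/-!
Moment functions of compactly supported probability measures on `[0, ∞)`, and the approximation of
`Γ(1+s) / Γ(1+βs)` by such functions.
-/

open Set Filter Topology MeasureTheory

namespace Pool.Agent.V11191.ML

/-- `m s` is the moment of order `s` of a probability measure on `[0, C]` -/
def IsMom (m : ℝ → ℝ) : Prop :=
  ∃ (μ : Measure ℝ) (C : ℝ), IsProbabilityMeasure μ ∧ (∀ᵐ x ∂μ, 0 ≤ x ∧ x ≤ C) ∧
    ∀ s : ℝ, 0 ≤ s → ∫ x, x ^ s ∂μ = m s

lemma integrable_rpow_mom {μ : Measure ℝ} {C : ℝ} [IsProbabilityMeasure μ]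
    (hμ : ∀ᵐ x ∂μ, 0 ≤ x ∧ x ≤ C) {s : ℝ} (hs : 0 ≤ s) : Integrable (fun x : ℝ => x ^ s) μ := by
  refine Integrable.of_bound (measurable_id.pow_const s).aestronglyMeasurable (C ^ s) ?_
  filter_upwards [hμ] with x hx
  rw [Real.norm_of_nonneg (Real.rpow_nonneg hx.1 s)]
  exact Real.rpow_le_rpow hx.1 hx.2 hs

lemma IsMom.congr {m m' : ℝ → ℝ} (h : IsMom m) (hm : ∀ s, 0 ≤ s → m s = m' s) : IsMom m' := by
  obtain ⟨μ, C, h1, h2, h3⟩ := h
  exact ⟨μ, C, h1, h2, fun s hs => by rw [h3 s hs, hm s hs]⟩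

lemma IsMom.mul {m1 m2 : ℝ → ℝ} (h1 : IsMom m1) (h2 : IsMom m2) :
    IsMom (fun s => m1 s * m2 s) := by
  obtain ⟨μ, C, hμ, hc, hm⟩ := h1
  obtain ⟨ν, D, hν, hd, hn⟩ := h2
  have hmeas : Measurable (fun p : ℝ × ℝ => p.1 * p.2) := by fun_prop
  have hae : ∀ᵐ p ∂(μ.prod ν), (0 ≤ p.1 ∧ p.1 ≤ C) ∧ (0 ≤ p.2 ∧ p.2 ≤ D) := by
    have a1 := Measure.quasiMeasurePreserving_fst (μ := μ) (ν := ν) |>.ae hc
    have a2 := Measure.quasiMeasurePreserving_snd (μ := μ) (ν := ν) |>.ae hd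
    filter_upwards [a1, a2] with p h1 h2 using ⟨h1, h2⟩
  refine ⟨(μ.prod ν).map (fun p => p.1 * p.2), C * D, ?_, ?_, ?_⟩
  · exact Measure.isProbabilityMeasure_map hmeas.aemeasurable
  · rw [ae_map_iff hmeas.aemeasurable]
    · filter_upwards [hae] with p hp
      exact ⟨mul_nonneg hp.1.1 hp.2.1,
        mul_le_mul hp.1.2 hp.2.2 hp.2.1 (hp.1.1.trans hp.1.2)⟩
    · exact measurableSet_Icc
  · intro s hs
    have hms : Measurable (fun x : ℝ => x ^ s) := measurable_id.pow_const s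
    rw [integral_map hmeas.aemeasurable hms.aestronglyMeasurable]
    have : ∀ᵐ p ∂(μ.prod ν), (p.1 * p.2) ^ s = p.1 ^ s * p.2 ^ s := by
      filter_upwards [hae] with p hp
      exact Real.mul_rpow hp.1.1 hp.2.1
    rw [integral_congr_ae this, integral_prod_mul (fun x : ℝ => x ^ s) (fun x : ℝ => x ^ s),
      hm s hs, hn s hs]

lemma isMom_rpow {c : ℝ} (hc : 0 ≤ c) : IsMom (fun s => c ^ s) := by
  refine ⟨Measure.dirac c, c, inferInstance, ?_, ?_⟩
  · rw [ae_dirac_iff (p := fun x => 0 ≤ x ∧ x ≤ c) measurableSet_Icc]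
    exact ⟨hc, le_rfl⟩
  · intro s _
    rw [integral_dirac]

lemma isMom_one : IsMom (fun _ => 1) :=
  (isMom_rpow zero_le_one).congr (fun s _ => Real.one_rpow s)

lemma IsMom.mix {m1 m2 : ℝ → ℝ} (h1 : IsMom m1) (h2 : IsMom m2) {b : ℝ} (hb0 : 0 ≤ b)
    (hb1 : b ≤ 1) : IsMom (fun s => b * m1 s + (1 - b) * m2 s) := by
  obtain ⟨μ, C, hμ, hc, hm⟩ := h1
  obtain ⟨ν, D, hν, hd, hn⟩ := h2
  refine ⟨ENNReal.ofReal b • μ + ENNReal.ofReal (1 - b) • ν, max C D, ?_, ?_, ?_⟩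
  · constructor
    simp only [Measure.coe_add, Measure.coe_smul, Pi.add_apply, Pi.smul_apply, measure_univ,
      smul_eq_mul, mul_one]
    rw [← ENNReal.ofReal_add hb0 (by linarith)]
    simp
  · rw [ae_add_measure_iff]
    constructor
    · apply Measure.ae_smul_measure
      filter_upwards [hc] with x hx using ⟨hx.1, hx.2.trans (le_max_left _ _)⟩
    · apply Measure.ae_smul_measure
      filter_upwards [hd] with x hx using ⟨hx.1, hx.2.trans (le_max_right _ _)⟩
  · intro s hs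
    rw [integral_add_measure ((integrable_rpow_mom hc hs).smul_measure ENNReal.ofReal_ne_top)
      ((integrable_rpow_mom hd hs).smul_measure ENNReal.ofReal_ne_top),
      integral_smul_measure, integral_smul_measure, hm s hs, hn s hs,
      ENNReal.toReal_ofReal hb0, ENNReal.toReal_ofReal (by linarith)]
    simp

lemma isMom_unif {k : ℝ} (hk : 0 < k) : IsMom (fun s => k / (k + s)) := by
  have hmeas : Measurable (fun u : ℝ => u ^ (1 / k)) := measurable_id.pow_const _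
  have : IsProbabilityMeasure (volume.restrict (Icc (0 : ℝ) 1)) := ⟨by simp⟩
  refine ⟨(volume.restrict (Icc (0 : ℝ) 1)).map (fun u => u ^ (1 / k)), 1, ?_, ?_, ?_⟩
  · exact Measure.isProbabilityMeasure_map hmeas.aemeasurable
  · rw [ae_map_iff hmeas.aemeasurable (p := fun x => 0 ≤ x ∧ x ≤ 1) measurableSet_Icc,
      ae_restrict_iff' measurableSet_Icc]
    refine Eventually.of_forall fun u hu => ?_
    exact ⟨Real.rpow_nonneg hu.1 _, Real.rpow_le_one hu.1 hu.2 (by positivity)⟩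
  · intro s hs
    have hms : Measurable (fun x : ℝ => x ^ s) := measurable_id.pow_const s
    rw [integral_map hmeas.aemeasurable hms.aestronglyMeasurable,
      integral_Icc_eq_integral_Ioc, ← intervalIntegral.integral_of_le zero_le_one]
    have h1 : ∫ u in (0 : ℝ)..1, (u ^ (1 / k)) ^ s = ∫ u in (0 : ℝ)..1, u ^ (s / k) := by
      apply intervalIntegral.integral_congr
      intro u hu
      rw [uIcc_of_le zero_le_one] at hu
      simp only
      rw [← Real.rpow_mul hu.1]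
      congr 1
      ring
    rw [h1, integral_rpow (Or.inl (by
      have : 0 ≤ s / k := by positivity
      linarith))]
    have h2 : s / k + 1 ≠ 0 := by positivity
    rw [Real.one_rpow, Real.zero_rpow h2]
    field_simp
    ring

lemma isMom_factor {b : ℝ} (hb0 : 0 ≤ b) (hb1 : b ≤ 1) {k : ℝ} (hk : 0 < k) :
    IsMom (fun s => (1 + b * s / k) / (1 + s / k)) := by
  refine (isMom_one.mix (isMom_unif hk) hb0 hb1).congr ?_
  intro s hs
  have : k + s ≠ 0 := by positivity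
  have h2 : 1 + s / k ≠ 0 := by positivity
  field_simp
  ring

/-- finite products -/
noncomputable def Q (s : ℝ) (n : ℕ) : ℝ := ∏ k ∈ Finset.range n, (1 + s / ((k : ℝ) + 1))

/-- the approximating moment functions -/
noncomputable def mm (b : ℝ) (n : ℕ) (s : ℝ) : ℝ := (n : ℝ) ^ ((1 - b) * s) * (Q (b * s) n / Q s n)

lemma Q_pos {s : ℝ} (hs : 0 ≤ s) (n : ℕ) : 0 < Q s n :=
  Finset.prod_pos fun k _ => by positivity

lemma isMom_mm {b : ℝ} (hb0 : 0 ≤ b) (hb1 : b ≤ 1) (n : ℕ) : IsMom (mm b n) := by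
  have h1 : ∀ n, IsMom (fun s => Q (b * s) n / Q s n) := by
    intro n
    induction n with
    | zero => simpa [Q] using isMom_one
    | succ n ih =>
      refine (ih.mul (isMom_factor hb0 hb1 (k := (n : ℝ) + 1) (by positivity))).congr ?_
      intro s hs
      unfold Q
      rw [Finset.prod_range_succ, Finset.prod_range_succ, mul_div_mul_comm]
  have h2 : IsMom (fun s => ((n : ℝ) ^ (1 - b)) ^ s) := isMom_rpow (by positivity)
  refine (h2.mul (h1 n)).congr ?_
  intro s hs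
  unfold mm
  rw [Real.rpow_mul (by positivity)]

lemma gammaSeq_eq {s : ℝ} (hs : 0 < s) (n : ℕ) :
    s * Real.GammaSeq s n = (n : ℝ) ^ s / Q s n := by
  unfold Real.GammaSeq Q
  rw [Finset.prod_range_succ']
  have h1 : (n.factorial : ℝ) = ∏ k ∈ Finset.range n, ((k : ℝ) + 1) := by
    rw [← Finset.prod_range_add_one_eq_factorial]
    push_cast
    rfl
  have h2 : ∏ k ∈ Finset.range n, (s + ((k + 1 : ℕ) : ℝ)) =
      (∏ k ∈ Finset.range n, ((k : ℝ) + 1)) * ∏ k ∈ Finset.range n, (1 + s / ((k : ℝ) + 1)) := by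
    rw [← Finset.prod_mul_distrib]
    apply Finset.prod_congr rfl
    intro k _
    have : ((k : ℝ) + 1) ≠ 0 := by positivity
    push_cast
    field_simp
    ring
  rw [h1, h2]
  have h3 : (∏ k ∈ Finset.range n, ((k : ℝ) + 1)) ≠ 0 :=
    Finset.prod_ne_zero_iff.2 fun k _ => by positivity
  have h4 : (∏ k ∈ Finset.range n, (1 + s / ((k : ℝ) + 1))) ≠ 0 :=
    Finset.prod_ne_zero_iff.2 fun k _ => by positivity
  simp only [Nat.cast_zero, add_zero]
  field_simp

lemma tendsto_gam {s : ℝ} (hs : 0 < s) :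
    Tendsto (fun n : ℕ => (n : ℝ) ^ s / Q s n) atTop (𝓝 (Real.Gamma (s + 1))) := by
  have h := (Real.GammaSeq_tendsto_Gamma s).const_mul s
  rw [← Real.Gamma_add_one hs.ne'] at h
  exact h.congr (gammaSeq_eq hs)

lemma tendsto_mm {b s : ℝ} (hb0 : 0 < b) (hs : 0 ≤ s) :
    Tendsto (fun n : ℕ => mm b n s) atTop
      (𝓝 (Real.Gamma (s + 1) / Real.Gamma (b * s + 1))) := by
  rcases hs.eq_or_lt with rfl | hs
  · have : ∀ n, mm b n 0 = 1 := by
      intro n
      simp [mm, Q]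
    simp only [this, mul_zero, zero_add, Real.Gamma_one, div_one]
    exact tendsto_const_nhds
  have h1 := (tendsto_gam hs).div (tendsto_gam (mul_pos hb0 hs))
    (Real.Gamma_pos_of_pos (by positivity)).ne'
  refine h1.congr' ?_
  filter_upwards [eventually_gt_atTop 0] with n hn
  have hn' : (0 : ℝ) < n := by exact_mod_cast hn
  have e1 : (n : ℝ) ^ s = (n : ℝ) ^ ((1 - b) * s) * (n : ℝ) ^ (b * s) := by
    rw [← Real.rpow_add hn']; congr 1; ring
  have q1 := (Q_pos hs.le n).ne'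
  have q2 := (Q_pos (mul_pos hb0 hs).le n).ne'
  have h3 : (n : ℝ) ^ (b * s) ≠ 0 := (Real.rpow_pos_of_pos hn' _).ne'
  simp only [Pi.div_apply]
  unfold mm
  rw [e1]
  field_simp

lemma mm_le_succ {b s : ℝ} (hb0 : 0 ≤ b) (hb1 : b ≤ 1) (hs : 0 ≤ s) {n : ℕ} (hn : 0 < n) :
    mm b n s ≤ mm b (n + 1) s := by
  have hn' : (0 : ℝ) < n := by exact_mod_cast hn
  set y := (1 - b) * s with hy
  have hy0 : 0 ≤ y := mul_nonneg (by linarith) hs
  have h1 : 1 + y / (n + 1) ≤ (((n : ℝ) + 1) / n) ^ y := by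
    have hpos : (0 : ℝ) < ((n : ℝ) + 1) / n := by positivity
    rw [Real.rpow_def_of_pos hpos]
    have h2 : 1 / ((n : ℝ) + 1) ≤ Real.log (((n : ℝ) + 1) / n) := by
      have h3 := Real.add_one_le_exp (-(1 / ((n : ℝ) + 1)))
      have h4 : Real.log ((n : ℝ) / (n + 1)) ≤ (n : ℝ) / (n + 1) - 1 :=
        Real.log_le_sub_one_of_pos (by positivity)
      have h5 : Real.log (((n : ℝ) + 1) / n) = -Real.log ((n : ℝ) / (n + 1)) := by
        rw [← Real.log_inv, inv_div]
      have h6 : (n : ℝ) / (n + 1) - 1 = -(1 / ((n : ℝ) + 1)) := by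
        field_simp
        ring
      rw [h5]
      linarith
    calc 1 + y / (n + 1) ≤ Real.exp (y / (n + 1)) := by
          have := Real.add_one_le_exp (y / ((n : ℝ) + 1)); linarith
      _ ≤ _ := by
          apply Real.exp_le_exp.2
          calc y / ((n : ℝ) + 1) = 1 / ((n : ℝ) + 1) * y := by ring
            _ ≤ _ := mul_le_mul_of_nonneg_right h2 hy0
  have h7 : 1 + s / ((n : ℝ) + 1) ≤ (1 + y / (n + 1)) * (1 + b * s / ((n : ℝ) + 1)) := by
    have e : (1 + y / ((n : ℝ) + 1)) * (1 + b * s / ((n : ℝ) + 1)) =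
        1 + s / ((n : ℝ) + 1) + (y / ((n : ℝ) + 1)) * (b * s / ((n : ℝ) + 1)) := by
      rw [hy]; field_simp; ring
    rw [e]
    have : 0 ≤ (y / ((n : ℝ) + 1)) * (b * s / ((n : ℝ) + 1)) := by positivity
    linarith
  have h8 : 1 + s / ((n : ℝ) + 1) ≤
      (((n : ℝ) + 1) / n) ^ y * (1 + b * s / ((n : ℝ) + 1)) :=
    h7.trans (mul_le_mul_of_nonneg_right h1 (by positivity))
  have q1 := Q_pos hs n
  have q2 := Q_pos (mul_nonneg hb0 hs) n
  unfold mm
  have e1 : Q (b * s) (n + 1) = Q (b * s) n * (1 + b * s / ((n : ℝ) + 1)) := by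
    unfold Q; rw [Finset.prod_range_succ]
  have e2 : Q s (n + 1) = Q s n * (1 + s / ((n : ℝ) + 1)) := by
    unfold Q; rw [Finset.prod_range_succ]
  have e3 : ((n + 1 : ℕ) : ℝ) ^ y = (n : ℝ) ^ y * (((n : ℝ) + 1) / n) ^ y := by
    rw [← Real.mul_rpow (by positivity) (by positivity)]
    congr 1
    push_cast
    field_simp
  rw [e1, e2, ← hy, e3]
  have hd : 0 < 1 + s / ((n : ℝ) + 1) := by positivity
  have e4 : (n : ℝ) ^ y * (((n : ℝ) + 1) / n) ^ y *
      (Q (b * s) n * (1 + b * s / ((n : ℝ) + 1)) / (Q s n * (1 + s / ((n : ℝ) + 1)))) =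
      (n : ℝ) ^ y * (Q (b * s) n / Q s n) *
      (((((n : ℝ) + 1) / n) ^ y * (1 + b * s / ((n : ℝ) + 1))) / (1 + s / ((n : ℝ) + 1))) := by
    field_simp
  rw [e4]
  have h9 : 1 ≤ ((((n : ℝ) + 1) / n) ^ y * (1 + b * s / ((n : ℝ) + 1))) /
      (1 + s / ((n : ℝ) + 1)) := by
    rw [le_div_iff₀ hd]; linarith
  exact le_mul_of_one_le_right (by positivity) h9

lemma mm_nonneg {b s : ℝ} (hb0 : 0 ≤ b) (hs : 0 ≤ s) (n : ℕ) : 0 ≤ mm b n s := by
  have q1 := Q_pos hs n
  have q2 := Q_pos (mul_nonneg hb0 hs) n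
  unfold mm
  positivity

lemma mm_le {b s : ℝ} (hb0 : 0 < b) (hb1 : b ≤ 1) (hs : 0 ≤ s) {n : ℕ} (hn : 0 < n) :
    mm b n s ≤ Real.Gamma (s + 1) / Real.Gamma (b * s + 1) := by
  refine ge_of_tendsto (tendsto_mm hb0 hs) ?_
  filter_upwards [eventually_ge_atTop n] with N hN
  induction N, hN using Nat.le_induction with
  | base => exact le_rfl
  | succ N hN ih => exact ih.trans (mm_le_succ hb0.le hb1 hs (hn.trans_le hN))

end Pool.Agent.V11191.ML
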