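import Mathlib

/-!
Real Mittag-Leffler functions: summability and smoothness.
-/

open Set Filter Topology
open scoped Nat ContDiff

namespace Pool.Agent.V11191.ML

lemma gamma_ratio_le {x a : ℝ} (hx : 0 < x) (ha : 0 < a) (ha1 : a ≤ 1) :
    Real.Gamma x / Real.Gamma (x + a) ≤ (x + a) ^ (1 - a) / x := by
  have hg : 0 < Real.Gamma x := Real.Gamma_pos_of_pos hx
  have hg2 : 0 < Real.Gamma (x + a) := Real.Gamma_pos_of_pos (by positivity)
  have hxa : 0 < x + a := by positivity
  have key : x * Real.Gamma x ≤ Real.Gamma (x + a) * (x + a) ^ (1 - a) := by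
    rcases ha1.eq_or_lt with rfl | ha1
    · rw [Real.Gamma_add_one hx.ne']; simp
    · have h := Real.Gamma_mul_add_mul_le_rpow_Gamma_mul_rpow_Gamma (s := x + a) (t := x + a + 1)
        (a := a) (b := 1 - a) hxa (by linarith) ha (by linarith) (by ring)
      have e : a * (x + a) + (1 - a) * (x + a + 1) = x + 1 := by ring
      rw [e, Real.Gamma_add_one hx.ne', Real.Gamma_add_one hxa.ne',
        Real.mul_rpow hxa.le hg2.le] at h
      calc x * Real.Gamma x ≤ _ := h
        _ = (Real.Gamma (x + a) ^ a * Real.Gamma (x + a) ^ (1 - a)) * (x + a) ^ (1 - a) := by ring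
        _ = _ := by
          rw [← Real.rpow_add hg2]
          simp
  rw [div_le_div_iff₀ hg2 hx]
  linarith

lemma gamma_ratio_tendsto {a : ℝ} (ha : 0 < a) (ha1 : a ≤ 1) :
    Tendsto (fun x : ℝ => Real.Gamma x / Real.Gamma (x + a)) atTop (𝓝 0) := by
  have h1 : Tendsto (fun x : ℝ => 2 * (x + a) ^ (-a)) atTop (𝓝 0) := by
    have h2 : Tendsto (fun x : ℝ => x + a) atTop atTop := tendsto_atTop_add_const_right _ _ tendsto_id
    have h3 := ((tendsto_rpow_neg_atTop ha).comp h2).const_mul 2
    simpa using h3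
  refine squeeze_zero' ?_ ?_ h1
  · filter_upwards [eventually_gt_atTop 0] with x hx
    exact div_nonneg (Real.Gamma_nonneg_of_nonneg hx.le)
      (Real.Gamma_nonneg_of_nonneg (by positivity))
  · filter_upwards [eventually_ge_atTop 1] with x hx
    have hx0 : 0 < x := by linarith
    refine (gamma_ratio_le hx0 ha ha1).trans ?_
    have hxa : 0 < x + a := by positivity
    have e : (x + a) ^ (1 - a) = (x + a) * (x + a) ^ (-a) := by
      rw [sub_eq_add_neg, Real.rpow_add hxa, Real.rpow_one]
    rw [e, div_le_iff₀ hx0]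
    have : 0 ≤ (x + a) ^ (-a) := Real.rpow_nonneg hxa.le _
    nlinarith

/-- the coefficients -/
noncomputable def cf (a b : ℝ) (k : ℕ) : ℝ := (Real.Gamma (a * k + b))⁻¹

lemma cf_pos {a b : ℝ} (ha : 0 < a) (hb : 0 < b) (k : ℕ) : 0 < cf a b k :=
  inv_pos.2 (Real.Gamma_pos_of_pos (by positivity))

lemma cf_radius {a b : ℝ} (ha : 0 < a) (ha1 : a ≤ 1) (hb : 0 < b) :
    (FormalMultilinearSeries.ofScalars ℝ (cf a b)).radius = ⊤ := by
  apply FormalMultilinearSeries.ofScalars_radius_eq_top_of_tendsto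
  · exact Eventually.of_forall fun k => (cf_pos ha hb k).ne'
  · have h1 : Tendsto (fun k : ℕ => a * k + b) atTop atTop :=
      tendsto_atTop_add_const_right _ _ (tendsto_natCast_atTop_atTop.const_mul_atTop ha)
    refine ((gamma_ratio_tendsto ha ha1).comp h1).congr ?_
    intro k
    simp only [Function.comp]
    rw [Real.norm_of_nonneg (cf_pos ha hb _).le, Real.norm_of_nonneg (cf_pos ha hb _).le]
    unfold cf
    have e : a * (k.succ : ℝ) + b = a * k + b + a := by push_cast; ring
    rw [e, inv_div_inv]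

lemma summable_ml {a b : ℝ} (ha : 0 < a) (ha1 : a ≤ 1) (hb : 0 < b) (T : ℝ) :
    Summable (fun k : ℕ => |T| ^ k * cf a b k) := by
  have h := (FormalMultilinearSeries.ofScalars ℝ (cf a b)).summable_norm_mul_pow (r := ‖T‖₊)
    (by rw [cf_radius ha ha1 hb]; exact ENNReal.coe_lt_top)
  refine h.congr ?_
  intro k
  rw [FormalMultilinearSeries.ofScalars_norm, Real.norm_of_nonneg (cf_pos ha hb _).le]
  simp [mul_comm]

/-- the two-parameter Mittag-Leffler function on the real line -/
noncomputable def MLf (a b z : ℝ) : ℝ := ∑' k : ℕ, z ^ k / Real.Gamma (a * k + b)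

lemma MLf_contDiff {a b : ℝ} (ha : 0 < a) (ha1 : a ≤ 1) (hb : 0 < b) :
    ContDiff ℝ ∞ (MLf a b) := by
  have h0 : 0 < (FormalMultilinearSeries.ofScalars ℝ (cf a b)).radius := by
    rw [cf_radius ha ha1 hb]; exact ENNReal.coe_lt_top
  have h1 := (FormalMultilinearSeries.ofScalars ℝ (cf a b)).hasFPowerSeriesOnBall h0
  rw [cf_radius ha ha1 hb] at h1
  have h2 := h1.analyticOnNhd
  have h3 : (FormalMultilinearSeries.ofScalars ℝ (cf a b)).sum = MLf a b := by
    have := FormalMultilinearSeries.ofScalarsSum_eq_tsum (E := ℝ) (cf a b)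
    unfold FormalMultilinearSeries.ofScalarsSum at this
    rw [this]
    funext x
    unfold MLf cf
    congr 1
    funext k
    rw [smul_eq_mul]
    ring
  rw [h3] at h2
  have h4 : Metric.eball (0 : ℝ) ⊤ = univ := by
    ext x; simp
  rw [h4] at h2
  exact h2.contDiff

end Pool.Agent.V11191.ML
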