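import Mathlib
import Pool.Agent.V11191.ML.Diff
import Pool.Agent.V11191.ML.Kernel
import Pool.Agent.V11191.ML.Series
import Pool.Agent.V11191.ML.Moment

open Set Filter Topology MeasureTheory
open scoped Nat ContDiff

namespace Pool.Agent.V11191.ML

/-- series with the moment function `m` -/
noncomputable def S (e : ℝ) (m : ℝ → ℝ) (t : ℝ) : ℝ :=
  ∑' j : ℕ, (-1) ^ j * t ^ ((j : ℝ) + e) * m (j + e) / Real.Gamma (j + e + 1)

lemma term_summable {e : ℝ} (he : 0 ≤ e) {T : ℝ} (hT : 0 ≤ T) :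
    Summable (fun j : ℕ => T ^ ((j : ℝ) + e) / Real.Gamma (j + e + 1)) := by
  have h := (summable_ml (a := 1) (b := e + 1) one_pos le_rfl (by linarith) T).mul_left (T ^ e)
  refine h.congr ?_
  intro j
  unfold cf
  rw [abs_of_nonneg hT, Real.rpow_add_of_nonneg hT (by positivity) he, Real.rpow_natCast]
  rw [show (1 : ℝ) * j + (e + 1) = j + e + 1 by ring]
  ring

lemma int_series {e : ℝ} (he : 0 ≤ e) {F : ℝ → ℝ}
    (hF : ∀ u, 0 ≤ u →
      HasSum (fun j : ℕ => (-1) ^ j * u ^ ((j : ℝ) + e) / Real.Gamma (j + e + 1)) (F u))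
    {m : ℝ → ℝ} {μ : Measure ℝ} {C : ℝ} [IsProbabilityMeasure μ]
    (hμ : ∀ᵐ x ∂μ, 0 ≤ x ∧ x ≤ C) (hm : ∀ s : ℝ, 0 ≤ s → ∫ x, x ^ s ∂μ = m s)
    {t : ℝ} (ht : 0 < t) : ∫ x, F (t * x) ∂μ = S e m t := by
  have hC : 0 ≤ C := by
    obtain ⟨x, hx⟩ := hμ.exists
    exact hx.1.trans hx.2
  have hle : ∀ s : ℝ, 0 ≤ s → m s ≤ C ^ s := by
    intro s hs
    rw [← hm s hs]
    have h1 : ∫ x, x ^ s ∂μ ≤ ∫ _, C ^ s ∂μ := by
      apply integral_mono_ae (integrable_rpow_mom hμ hs) (integrable_const _)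
      filter_upwards [hμ] with x hx
      exact Real.rpow_le_rpow hx.1 hx.2 hs
    simpa using h1
  set f : ℕ → ℝ → ℝ := fun j x =>
    ((-1) ^ j * t ^ ((j : ℝ) + e) / Real.Gamma (j + e + 1)) * x ^ ((j : ℝ) + e) with hf
  have hint : ∀ j, Integrable (f j) μ := fun j =>
    (integrable_rpow_mom hμ (by positivity)).const_mul _
  have hG : ∀ j : ℕ, 0 < Real.Gamma (j + e + 1) := fun j => Real.Gamma_pos_of_pos (by positivity)
  have hsum : Summable fun j => ∫ x, ‖f j x‖ ∂μ := by
    refine Summable.of_nonneg_of_le (fun j => integral_nonneg fun x => norm_nonneg _) ?_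
      (term_summable he (mul_nonneg ht.le hC))
    intro j
    have hj : (0 : ℝ) ≤ (j : ℝ) + e := by positivity
    have h1 : ∫ x, ‖f j x‖ ∂μ = t ^ ((j : ℝ) + e) / Real.Gamma (j + e + 1) * m (j + e) := by
      rw [← hm _ hj, ← integral_const_mul]
      apply integral_congr_ae
      filter_upwards [hμ] with x hx
      simp only [hf]
      rw [norm_mul, norm_div, norm_mul, norm_pow, norm_neg, norm_one, one_pow, one_mul,
        Real.norm_of_nonneg (Real.rpow_nonneg ht.le _), Real.norm_of_nonneg (hG j).le,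
        Real.norm_of_nonneg (Real.rpow_nonneg hx.1 _)]
    rw [h1, Real.mul_rpow ht.le hC]
    calc t ^ ((j : ℝ) + e) / Real.Gamma (j + e + 1) * m (j + e)
        ≤ t ^ ((j : ℝ) + e) / Real.Gamma (j + e + 1) * C ^ ((j : ℝ) + e) :=
          mul_le_mul_of_nonneg_left (hle _ hj)
            (div_nonneg (Real.rpow_nonneg ht.le _) (hG j).le)
      _ = _ := by ring
  have h2 := hasSum_integral_of_summable_integral_norm hint hsum
  have h3 : ∫ x, (∑' j, f j x) ∂μ = ∫ x, F (t * x) ∂μ := by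
    apply integral_congr_ae
    filter_upwards [hμ] with x hx
    rw [← (hF (t * x) (mul_nonneg ht.le hx.1)).tsum_eq]
    congr 1
    funext j
    simp only [hf]
    rw [Real.mul_rpow ht.le hx.1]
    ring
  rw [h3] at h2
  rw [← h2.tsum_eq]
  unfold S
  congr 1
  funext j
  simp only [hf]
  rw [integral_const_mul, hm _ (by positivity)]
  ring

lemma exp_hasSum' {u : ℝ} (hu : 0 ≤ u) :
    HasSum (fun j : ℕ => (-1) ^ j * u ^ ((j : ℝ) + 0) / Real.Gamma (j + 0 + 1))
      (Real.exp (-u)) := by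
  have h := NormedSpace.expSeries_div_hasSum_exp (-u)
  rw [← Real.exp_eq_exp_ℝ] at h
  refine h.congr_fun ?_
  intro j
  rw [add_zero, Real.rpow_natCast, Real.Gamma_nat_eq_factorial, neg_pow u j]

lemma P_cont (c : ℝ) : Continuous (P c) :=
  continuous_iff_continuousAt.2 fun t => (P_deriv c t).continuousAt

lemma G_cont : Continuous G := by
  have := P_cont 1
  unfold G
  fun_prop

lemma approx {m : ℝ → ℝ} (h : IsMom m) :
    ∃ f : ℝ → ℝ, InC f ∧ ∀ t, 0 < t → f t = S 0 m t ^ 2 + S (1 / 2) m t ^ 2 := by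
  obtain ⟨μ, C, hP, hμ, hm⟩ := h
  have hint1 : ∀ t : ℝ, 0 < t → Integrable (fun x : ℝ => Real.exp (-(t * x))) μ := by
    intro t ht
    refine Integrable.of_bound (by fun_prop : Continuous _).aestronglyMeasurable 1 ?_
    filter_upwards [hμ] with x hx
    rw [Real.norm_of_nonneg (Real.exp_pos _).le, Real.exp_le_one_iff]
    have := mul_nonneg ht.le hx.1
    linarith
  have hint2 : ∀ t : ℝ, 0 < t → Integrable (fun x : ℝ => G (t * x)) μ := by
    intro t ht
    have hc : Continuous fun x : ℝ => G (t * x) := G_cont.comp (by fun_prop)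
    obtain ⟨D, hD⟩ := (isCompact_Icc (a := (0 : ℝ)) (b := C)).exists_bound_of_continuousOn
      hc.continuousOn
    refine Integrable.of_bound hc.aestronglyMeasurable D ?_
    filter_upwards [hμ] with x hx
    exact hD x hx
  refine ⟨fun t => ∫ z, (Real.exp (-(t * (z.1 + z.2))) + G (t * z.1) * G (t * z.2)) ∂(μ.prod μ),
    ?_, ?_⟩
  · apply inC_integral
    · intro t ht
      have a1 : Integrable (fun z : ℝ × ℝ => Real.exp (-(t * z.1)) * Real.exp (-(t * z.2)))
        (μ.prod μ) := (hint1 t ht).mul_prod (hint1 t ht)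
      have a2 : Integrable (fun z : ℝ × ℝ => G (t * z.1) * G (t * z.2))
        (μ.prod μ) := (hint2 t ht).mul_prod (hint2 t ht)
      refine (a1.add a2).congr (Eventually.of_forall fun z => ?_)
      simp only [Pi.add_apply]
      rw [← Real.exp_add]
      congr 2
      ring
    · have a1 := Measure.quasiMeasurePreserving_fst (μ := μ) (ν := μ) |>.ae hμ
      have a2 := Measure.quasiMeasurePreserving_snd (μ := μ) (ν := μ) |>.ae hμ
      filter_upwards [a1, a2] with z h1 h2
      exact kernel_inC h1.1 h2.1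
  · intro t ht
    rw [← int_series (e := 0) le_rfl (F := fun u => Real.exp (-u)) (fun u hu => exp_hasSum' hu)
      hμ hm ht, ← int_series (e := 1 / 2) (by norm_num) (F := G) (fun u hu => G_hasSum hu)
      hμ hm ht]
    have a1 : Integrable (fun z : ℝ × ℝ => Real.exp (-(t * z.1)) * Real.exp (-(t * z.2)))
        (μ.prod μ) := (hint1 t ht).mul_prod (hint1 t ht)
    have a2 : Integrable (fun z : ℝ × ℝ => G (t * z.1) * G (t * z.2))
        (μ.prod μ) := (hint2 t ht).mul_prod (hint2 t ht)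
    have e1 : ∀ z : ℝ × ℝ, Real.exp (-(t * (z.1 + z.2))) + G (t * z.1) * G (t * z.2) =
        Real.exp (-(t * z.1)) * Real.exp (-(t * z.2)) + G (t * z.1) * G (t * z.2) := by
      intro z
      rw [← Real.exp_add]
      congr 2
      ring
    simp only [e1]
    rw [integral_add a1 a2,
      integral_prod_mul (fun x : ℝ => Real.exp (-(t * x))) (fun x : ℝ => Real.exp (-(t * x))),
      integral_prod_mul (fun x : ℝ => G (t * x)) (fun x : ℝ => G (t * x))]
    ring

lemma limit {b e t : ℝ} (hb0 : 0 < b) (hb1 : b ≤ 1) (he : 0 ≤ e) (ht : 0 < t) :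
    Tendsto (fun n : ℕ => S e (mm b n) t) atTop
      (𝓝 (t ^ e * MLf b (b * e + 1) (-t))) := by
  have h0 : t ^ e * MLf b (b * e + 1) (-t) =
      ∑' j : ℕ, (-1) ^ j * t ^ ((j : ℝ) + e) / Real.Gamma (b * (j + e) + 1) := by
    unfold MLf
    rw [← tsum_mul_left]
    congr 1
    funext j
    rw [Real.rpow_add_of_nonneg ht.le (by positivity) he, Real.rpow_natCast, neg_pow t j,
      show b * (j : ℝ) + (b * e + 1) = b * (j + e) + 1 by ring]
    ring
  rw [h0]
  unfold S
  have hG : ∀ j : ℕ, 0 < Real.Gamma (j + e + 1) := fun j => Real.Gamma_pos_of_pos (by positivity)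
  have hG2 : ∀ j : ℕ, 0 < Real.Gamma (b * (j + e) + 1) := fun j =>
    Real.Gamma_pos_of_pos (by positivity)
  apply tendsto_tsum_of_dominated_convergence
    (bound := fun j : ℕ => t ^ ((j : ℝ) + e) / Real.Gamma (b * (j + e) + 1))
  · have h := (summable_ml hb0 hb1 (b := b * e + 1) (by positivity) t).mul_left (t ^ e)
    refine h.congr ?_
    intro j
    unfold cf
    rw [abs_of_nonneg ht.le, Real.rpow_add_of_nonneg ht.le (by positivity) he, Real.rpow_natCast,
      show b * (j : ℝ) + (b * e + 1) = b * (j + e) + 1 by ring]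
    ring
  · intro j
    have h := ((tendsto_mm (s := (j : ℝ) + e) hb0 (by positivity)).const_mul
      ((-1) ^ j * t ^ ((j : ℝ) + e))).div_const (Real.Gamma (j + e + 1))
    have e1 : (-1) ^ j * t ^ ((j : ℝ) + e) *
        (Real.Gamma (j + e + 1) / Real.Gamma (b * (j + e) + 1)) / Real.Gamma (j + e + 1) =
        (-1) ^ j * t ^ ((j : ℝ) + e) / Real.Gamma (b * (j + e) + 1) := by
      have := (hG j).ne'
      field_simp
    rw [e1] at h
    exact h
  · filter_upwards [eventually_gt_atTop 0] with n hn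
    intro j
    have hs : (0 : ℝ) ≤ (j : ℝ) + e := by positivity
    have h1 := mm_le hb0 hb1 hs hn
    have h2 := mm_nonneg hb0.le hs n
    rw [norm_div, norm_mul, norm_mul, norm_pow, norm_neg, norm_one, one_pow, one_mul,
      Real.norm_of_nonneg (Real.rpow_nonneg ht.le _), Real.norm_of_nonneg (hG j).le,
      Real.norm_of_nonneg h2]
    calc t ^ ((j : ℝ) + e) * mm b n (j + e) / Real.Gamma (j + e + 1)
        ≤ t ^ ((j : ℝ) + e) * (Real.Gamma (j + e + 1) / Real.Gamma (b * (j + e) + 1)) /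
          Real.Gamma (j + e + 1) := by
          have := hG j
          have := Real.rpow_nonneg ht.le ((j : ℝ) + e)
          gcongr
      _ = _ := by
          have := (hG j).ne'
          field_simp

theorem main {b : ℝ} (hb0 : 0 < b) (hb1 : b ≤ 1) :
    InC (fun t => MLf b 1 (-t) ^ 2 + t * MLf b (1 + b / 2) (-t) ^ 2) := by
  choose f hf1 hf2 using fun n : ℕ => approx (isMom_mm hb0.le hb1 n)
  refine inC_of_tendsto (l := atTop) (Eventually.of_forall hf1) ?_
  intro t ht
  have h1 := limit (e := 0) hb0 hb1 le_rfl ht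
  have h2 := limit (e := 1 / 2) hb0 hb1 (by norm_num) ht
  have h3 := (h1.pow 2).add (h2.pow 2)
  have h4 : (t ^ (0 : ℝ) * MLf b (b * 0 + 1) (-t)) ^ 2 +
      (t ^ (1 / 2 : ℝ) * MLf b (b * (1 / 2) + 1) (-t)) ^ 2 =
      MLf b 1 (-t) ^ 2 + t * MLf b (1 + b / 2) (-t) ^ 2 := by
    have e1 : (t ^ (1 / 2 : ℝ)) ^ 2 = t := by
      rw [← Real.sqrt_eq_rpow, Real.sq_sqrt ht.le]
    rw [mul_pow, mul_pow, e1, Real.rpow_zero, show b * (1 / 2) + 1 = 1 + b / 2 by ring,
      show b * 0 + 1 = (1 : ℝ) by ring]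
    ring
  rw [h4] at h3
  refine h3.congr ?_
  intro n
  rw [hf2 n t ht]

end Pool.Agent.V11191.ML
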